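import Pool.Agent.Lib.MP_e24151_co.Pattern

set_option autoImplicit false

namespace Pool.Agent.Lib.MP_e24151_co

/-- Even residues of a closed half circle and odd residues of an open one, modulo `4 L`. -/
def G (L γ s : ℤ) : Prop :=
  (s % (4 * L) % 2 = 0 ∧ (s % (4 * L) = 0 ∨ 2 * L ≤ s % (4 * L))) ∨
    (s % (4 * L) % 2 = 1 ∧ γ < s % (4 * L) ∧ s % (4 * L) < γ + 2 * L)

/-- A closed half circle with a hole, modulo `4 L`. -/
def H (L s : ℤ) : Prop := s % (4 * L) ≤ 2 * L ∧ s % (4 * L) ≠ 2 * L - 2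

lemma dvd_iff_emod (L x : ℤ) (hL : 2 ≤ L) :
    2 * L ∣ x ↔ (x % (4 * L) = 0 ∨ x % (4 * L) = 2 * L) := by
  constructor
  · rintro ⟨j, rfl⟩
    rcases Int.even_or_odd' j with ⟨k, rfl | rfl⟩
    · left
      have : 2 * L * (2 * k) = (4 * L) * k := by ring
      rw [this, Int.mul_emod_right]
    · right
      have : 2 * L * (2 * k + 1) = 2 * L + (4 * L) * k := by ring
      rw [this, Int.add_mul_emod_self_left]
      exact Int.emod_eq_of_lt (by omega) (by omega)
  · intro h
    have e := Int.mul_ediv_add_emod x (4 * L)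
    rcases h with h | h
    · rw [h] at e
      exact ⟨2 * (x / (4 * L)), by linarith⟩
    · rw [h] at e
      exact ⟨2 * (x / (4 * L)) + 1, by linarith⟩

lemma G_per (L γ s k : ℤ) : G L γ (s + 4 * L * k) ↔ G L γ s := by
  unfold G
  rw [Int.add_mul_emod_self_left]

lemma H_per (L s k : ℤ) : H L (s + 4 * L * k) ↔ H L s := by
  unfold H
  rw [Int.add_mul_emod_self_left]

lemma G_hits (L γ s : ℤ) (hL : 2 ≤ L) (hγ : γ % 2 = 1) (h0 : 0 < γ) (h1 : γ < 2 * L) :
    G L γ (s - (L + 1)) ∨ G L γ (s + (L + 1)) ∨ G L γ (s + L) := by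
  have e1 : s + (L + 1) = (s - (L + 1)) + (2 * L + 2) := by ring
  have e2 : s + L = (s - (L + 1)) + (2 * L + 1) := by ring
  rw [e1, e2]
  generalize s - (L + 1) = x
  unfold G
  have a0 := Int.emod_nonneg x (show (4 * L) ≠ 0 by omega)
  have a1 := Int.emod_lt_of_pos x (show 0 < 4 * L by omega)
  have a2 := emod_add_cases x (2 * L + 2) (4 * L) (by omega) (by omega) (by omega)
  have a3 := emod_add_cases x (2 * L + 1) (4 * L) (by omega) (by omega) (by omega)
  generalize (x + (2 * L + 2)) % (4 * L) = A at *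
  generalize (x + (2 * L + 1)) % (4 * L) = B at *
  generalize x % (4 * L) = r at *
  omega

lemma H_hits (L s : ℤ) (hL : 2 ≤ L) :
    H L (s - (L + 1)) ∨ H L (s + (L + 1)) ∨ H L (s + L) := by
  have e1 : s + (L + 1) = (s - (L + 1)) + (2 * L + 2) := by ring
  have e2 : s + L = (s - (L + 1)) + (2 * L + 1) := by ring
  rw [e1, e2]
  generalize s - (L + 1) = x
  unfold H
  have a0 := Int.emod_nonneg x (show (4 * L) ≠ 0 by omega)
  have a1 := Int.emod_lt_of_pos x (show 0 < 4 * L by omega)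
  have a2 := emod_add_cases x (2 * L + 2) (4 * L) (by omega) (by omega) (by omega)
  have a3 := emod_add_cases x (2 * L + 1) (4 * L) (by omega) (by omega) (by omega)
  generalize (x + (2 * L + 2)) % (4 * L) = A at *
  generalize (x + (2 * L + 1)) % (4 * L) = B at *
  generalize x % (4 * L) = r at *
  omega

lemma G_two (L γ x : ℤ) (hL : 2 ≤ L) (hγ : γ % 2 = 1) (h0 : 0 < γ) (h1 : γ < 2 * L) :
    (G L γ x ∧ G L γ (x + 2 * L)) ↔ 2 * L ∣ x := by
  rw [dvd_iff_emod L x hL]
  unfold G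
  have a0 := Int.emod_nonneg x (show (4 * L) ≠ 0 by omega)
  have a1 := Int.emod_lt_of_pos x (show 0 < 4 * L by omega)
  have a2 := emod_add_cases x (2 * L) (4 * L) (by omega) (by omega) (by omega)
  generalize (x + 2 * L) % (4 * L) = A at *
  generalize x % (4 * L) = r at *
  omega

lemma G_zero (L γ x : ℤ) (hL : 2 ≤ L) (hγ : γ % 2 = 1) (h0 : 0 < γ) (h1 : γ < 2 * L) :
    (¬ G L γ x ∧ ¬ G L γ (x + 2 * L)) ↔ 2 * L ∣ x - γ := by
  obtain ⟨y, rfl⟩ : ∃ y, x = y + γ := ⟨x - γ, by ring⟩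
  rw [add_sub_cancel_right, dvd_iff_emod L y hL]
  unfold G
  have a0 := Int.emod_nonneg y (show (4 * L) ≠ 0 by omega)
  have a1 := Int.emod_lt_of_pos y (show 0 < 4 * L by omega)
  have b0 := Int.emod_nonneg (y + γ) (show (4 * L) ≠ 0 by omega)
  have b1 := Int.emod_lt_of_pos (y + γ) (show 0 < 4 * L by omega)
  have a2 := emod_add_cases y γ (4 * L) (by omega) (by omega) (by omega)
  have a3 := emod_add_cases (y + γ) (2 * L) (4 * L) (by omega) (by omega) (by omega)
  generalize (y + γ + 2 * L) % (4 * L) = A at *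
  generalize (y + γ) % (4 * L) = B at *
  generalize y % (4 * L) = r at *
  omega

lemma H_two (L x : ℤ) (hL : 2 ≤ L) : (H L x ∧ H L (x + 2 * L)) ↔ 2 * L ∣ x := by
  rw [dvd_iff_emod L x hL]
  unfold H
  have a0 := Int.emod_nonneg x (show (4 * L) ≠ 0 by omega)
  have a1 := Int.emod_lt_of_pos x (show 0 < 4 * L by omega)
  have a2 := emod_add_cases x (2 * L) (4 * L) (by omega) (by omega) (by omega)
  generalize (x + 2 * L) % (4 * L) = A at *
  generalize x % (4 * L) = r at *
  omega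

lemma H_zero (L x : ℤ) (hL : 2 ≤ L) : (¬ H L x ∧ ¬ H L (x + 2 * L)) ↔ 2 * L ∣ x + 2 := by
  rw [dvd_iff_emod L (x + 2) hL]
  unfold H
  have a0 := Int.emod_nonneg x (show (4 * L) ≠ 0 by omega)
  have a1 := Int.emod_lt_of_pos x (show 0 < 4 * L by omega)
  have a2 := emod_add_cases x (2 * L) (4 * L) (by omega) (by omega) (by omega)
  have a3 := emod_add_cases x 2 (4 * L) (by omega) (by omega) (by omega)
  generalize (x + 2 * L) % (4 * L) = A at *
  generalize (x + 2) % (4 * L) = B at *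
  generalize x % (4 * L) = r at *
  omega

/-- The pattern in the `i`-th class. -/
def cell (L γ q i s : ℤ) : Prop :=
  (i = q - 1 ∧ H L (s - i * γ)) ∨ (i ≠ q - 1 ∧ G L γ (s - i * γ))

lemma cell_last (L γ q i s : ℤ) (hi : i = q - 1) : cell L γ q i s ↔ H L (s - i * γ) := by
  simp [cell, hi]

lemma cell_ne (L γ q i s : ℤ) (hi : i ≠ q - 1) : cell L γ q i s ↔ G L γ (s - i * γ) := by
  simp [cell, hi]

/-- The pattern on the integers. -/
def chainP (L γ q b t : ℤ) : Prop :=
  ∃ i s, 0 ≤ i ∧ i < q ∧ t = i * b + q * s ∧ cell L γ q i s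

lemma chain_iff (L γ q b i s : ℤ) (hbq : IsCoprime q b) (h0 : 0 ≤ i) (h1 : i < q) :
    chainP L γ q b (i * b + q * s) ↔ cell L γ q i s := by
  constructor
  · rintro ⟨i', s', h0', h1', he, hc⟩
    have hd : q ∣ (i - i') * b := ⟨s' - s, by linarith⟩
    have hd2 : q ∣ (i - i') := hbq.dvd_of_dvd_mul_right hd
    have hii : i - i' = 0 := by
      apply Int.eq_zero_of_abs_lt_dvd hd2
      rw [abs_lt]
      constructor <;> omega
    have hi : i = i' := by omega
    subst hi
    have hs : q * (s - s') = 0 := by linarith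
    rcases mul_eq_zero.mp hs with h | h
    · omega
    · have : s = s' := by omega
      rw [this]; exact hc
  · intro hc
    exact ⟨i, s, h0, h1, rfl, hc⟩

lemma chain_repr (q b t : ℤ) (hq : 0 < q) (hbq : IsCoprime q b) :
    ∃ i s, 0 ≤ i ∧ i < q ∧ t = i * b + q * s := by
  obtain ⟨x, y, hxy⟩ := hbq
  -- x * q + y * b = 1
  refine ⟨(t * y) % q, t * x + ((t * y) / q) * b, Int.emod_nonneg _ hq.ne', Int.emod_lt_of_pos _ hq, ?_⟩
  have e := Int.mul_ediv_add_emod (t * y) q
  have : (t * y) % q = t * y - q * (t * y / q) := by linarith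
  rw [this]
  calc t = t * (x * q + y * b) := by rw [hxy]; ring
    _ = _ := by ring

lemma chain_nice (L γ q b j : ℤ) (hL : 2 ≤ L) (hγ : γ % 2 = 1) (h0 : 0 < γ) (h1 : γ < 2 * L)
    (hq : 2 ≤ q) (hbq : IsCoprime q b) (hj : (q - 1) * γ + b = 2 + 2 * L * j) :
    Nice (chainP L γ q b) (2 * L * q) b := by
  -- type two positions of the cells
  have T2 : ∀ i s, (cell L γ q i s ∧ cell L γ q i (s + 2 * L)) ↔ 2 * L ∣ s - i * γ := by
    intro i s
    have e : s + 2 * L - i * γ = (s - i * γ) + 2 * L := by ring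
    by_cases hi : i = q - 1
    · rw [cell_last _ _ _ _ _ hi, cell_last _ _ _ _ _ hi, e]
      exact H_two L _ hL
    · rw [cell_ne _ _ _ _ _ hi, cell_ne _ _ _ _ _ hi, e]
      exact G_two L γ _ hL hγ h0 h1
  have T0G : ∀ i s, i ≠ q - 1 →
      ((¬ cell L γ q i s ∧ ¬ cell L γ q i (s + 2 * L)) ↔ 2 * L ∣ s - i * γ - γ) := by
    intro i s hi
    have e : s + 2 * L - i * γ = (s - i * γ) + 2 * L := by ring
    rw [cell_ne _ _ _ _ _ hi, cell_ne _ _ _ _ _ hi, e]
    exact G_zero L γ _ hL hγ h0 h1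
  have T0H : ∀ s, ((¬ cell L γ q (q - 1) s ∧ ¬ cell L γ q (q - 1) (s + 2 * L)) ↔
      2 * L ∣ s - (q - 1) * γ + 2) := by
    intro s
    have e : s + 2 * L - (q - 1) * γ = (s - (q - 1) * γ) + 2 * L := by ring
    rw [cell_last _ _ _ _ _ rfl, cell_last _ _ _ _ _ rfl, e]
    exact H_zero L _ hL
  have hbd : (2 * L) ∣ (2 - b - (q - 1) * γ) := ⟨-j, by linarith⟩
  refine ⟨?_, ?_, ?_⟩
  · intro t
    obtain ⟨i, s, hi0, hi1, rfl⟩ := chain_repr q b t (by omega) hbq
    have e : i * b + q * s + 2 * (2 * L * q) = i * b + q * (s + 4 * L) := by ring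
    rw [e, chain_iff _ _ _ _ _ _ hbq hi0 hi1, chain_iff _ _ _ _ _ _ hbq hi0 hi1]
    have e2 : s + 4 * L - i * γ = (s - i * γ) + 4 * L * 1 := by ring
    by_cases hi : i = q - 1
    · rw [cell_last _ _ _ _ _ hi, cell_last _ _ _ _ _ hi, e2, H_per]
    · rw [cell_ne _ _ _ _ _ hi, cell_ne _ _ _ _ _ hi, e2, G_per]
  · intro t
    obtain ⟨i, s, hi0, hi1, rfl⟩ := chain_repr q b t (by omega) hbq
    intro ht1 ht2
    have e : i * b + q * s + 2 * L * q = i * b + q * (s + 2 * L) := by ring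
    rw [e, chain_iff _ _ _ _ _ _ hbq hi0 hi1] at ht2
    rw [chain_iff _ _ _ _ _ _ hbq hi0 hi1] at ht1
    have hd := (T2 i s).1 ⟨ht1, ht2⟩
    by_cases hi : i = 0
    · subst hi
      have e1 : (0 : ℤ) * b + q * s - b = (q - 1) * b + q * (s - b) := by ring
      have e2 : (q - 1) * b + q * (s - b) + 2 * L * q = (q - 1) * b + q * (s - b + 2 * L) := by ring
      rw [e1, e2, chain_iff _ _ _ _ _ _ hbq (by omega) (by omega),
        chain_iff _ _ _ _ _ _ hbq (by omega) (by omega)]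
      apply (T0H (s - b)).2
      have : s - b - (q - 1) * γ + 2 = (s - 0 * γ) + (2 - b - (q - 1) * γ) := by ring
      rw [this]
      exact dvd_add hd hbd
    · have e1 : i * b + q * s - b = (i - 1) * b + q * s := by ring
      have e2 : (i - 1) * b + q * s + 2 * L * q = (i - 1) * b + q * (s + 2 * L) := by ring
      rw [e1, e2, chain_iff _ _ _ _ _ _ hbq (by omega) (by omega),
        chain_iff _ _ _ _ _ _ hbq (by omega) (by omega)]
      apply (T0G (i - 1) s (by omega)).2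
      have : s - (i - 1) * γ - γ = s - i * γ := by ring
      rw [this]
      exact hd
  · intro t
    obtain ⟨i, s, hi0, hi1, rfl⟩ := chain_repr q b t (by omega) hbq
    intro ht1 ht2
    have e : i * b + q * s + 2 * L * q = i * b + q * (s + 2 * L) := by ring
    rw [e, chain_iff _ _ _ _ _ _ hbq hi0 hi1] at ht2
    rw [chain_iff _ _ _ _ _ _ hbq hi0 hi1] at ht1
    by_cases hi : i = q - 1
    · subst hi
      have hd := (T0H s).1 ⟨ht1, ht2⟩
      have e1 : (q - 1) * b + q * s + b = 0 * b + q * (s + b) := by ring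
      have e2 : 0 * b + q * (s + b) + 2 * L * q = 0 * b + q * (s + b + 2 * L) := by ring
      rw [e1, e2, chain_iff _ _ _ _ _ _ hbq (by omega) (by omega),
        chain_iff _ _ _ _ _ _ hbq (by omega) (by omega)]
      apply (T2 0 (s + b)).2
      have : s + b - 0 * γ = (s - (q - 1) * γ + 2) - (2 - b - (q - 1) * γ) := by ring
      rw [this]
      exact dvd_sub hd hbd
    · have hd := (T0G i s hi).1 ⟨ht1, ht2⟩
      have e1 : i * b + q * s + b = (i + 1) * b + q * s := by ring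
      have e2 : (i + 1) * b + q * s + 2 * L * q = (i + 1) * b + q * (s + 2 * L) := by ring
      rw [e1, e2, chain_iff _ _ _ _ _ _ hbq (by omega) (by omega),
        chain_iff _ _ _ _ _ _ hbq (by omega) (by omega)]
      apply (T2 (i + 1) s).2
      have : s - (i + 1) * γ = s - i * γ - γ := by ring
      rw [this]
      exact hd

lemma chain_hits (L γ q b t : ℤ) (hL : 2 ≤ L) (hγ : γ % 2 = 1) (h0 : 0 < γ) (h1 : γ < 2 * L)
    (hq : 2 ≤ q) (hbq : IsCoprime q b) :
    chainP L γ q b (t - q * (L + 1)) ∨ chainP L γ q b (t + q * (L + 1)) ∨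
      chainP L γ q b (t + q * L) := by
  obtain ⟨i, s, hi0, hi1, rfl⟩ := chain_repr q b t (by omega) hbq
  have e1 : i * b + q * s - q * (L + 1) = i * b + q * (s - (L + 1)) := by ring
  have e2 : i * b + q * s + q * (L + 1) = i * b + q * (s + (L + 1)) := by ring
  have e3 : i * b + q * s + q * L = i * b + q * (s + L) := by ring
  rw [e1, e2, e3, chain_iff _ _ _ _ _ _ hbq hi0 hi1, chain_iff _ _ _ _ _ _ hbq hi0 hi1,
    chain_iff _ _ _ _ _ _ hbq hi0 hi1]
  have f1 : s - (L + 1) - i * γ = (s - i * γ) - (L + 1) := by ring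
  have f2 : s + (L + 1) - i * γ = (s - i * γ) + (L + 1) := by ring
  have f3 : s + L - i * γ = (s - i * γ) + L := by ring
  by_cases hi : i = q - 1
  · rw [cell_last _ _ _ _ _ hi, cell_last _ _ _ _ _ hi, cell_last _ _ _ _ _ hi, f1, f2, f3]
    exact H_hits L _ hL
  · rw [cell_ne _ _ _ _ _ hi, cell_ne _ _ _ _ _ hi, cell_ne _ _ _ _ _ hi, f1, f2, f3]
    exact G_hits L γ _ hL hγ h0 h1

end Pool.Agent.Lib.MP_e24151_co
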