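import Pool.Agent.Lib.MP_e24151_co.Main

set_option autoImplicit false

namespace Pool.Agent.Lib.MP_e24151_co

open Filter Topology

lemma card_le_of_shift (A B : ℤ → Prop) [DecidablePred A] [DecidablePred B] (f : ℤ → ℤ) (C : ℕ) (hf : ∀ t, A t → B (f t))
    (hinj : ∀ s t, A s → A t → f s = f t → s = t) (hC : ∀ t, |f t - t| ≤ C) (n : ℕ) :
    ((Finset.Icc (-(n : ℤ)) n).filter A).card ≤
      ((Finset.Icc (-(n : ℤ)) n).filter B).card + 2 * C := by
  have h1 : ((Finset.Icc (-(n : ℤ)) n).filter A).card ≤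
      ((Finset.Icc (-((n + C : ℕ) : ℤ)) ((n + C : ℕ) : ℤ)).filter B).card := by
    apply Finset.card_le_card_of_injOn f
    · intro t ht
      simp only [Finset.coe_filter, Finset.mem_Icc, Set.mem_ofPred_eq] at ht ⊢
      have := hC t
      rw [abs_le] at this
      refine ⟨?_, hf t ht.2⟩
      push_cast
      constructor <;> linarith [ht.1.1, ht.1.2, this.1, this.2]
    · intro s hs t ht hst
      simp only [Finset.coe_filter, Finset.mem_Icc, Set.mem_ofPred_eq] at hs ht
      exact hinj s t hs.2 ht.2 hst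
  have hsub : Finset.Icc (-(n : ℤ)) n ⊆
      Finset.Icc (-((n + C : ℕ) : ℤ)) ((n + C : ℕ) : ℤ) := by
    intro t ht
    rw [Finset.mem_Icc] at ht ⊢
    push_cast
    constructor <;> linarith [ht.1, ht.2, (Nat.cast_nonneg C : (0 : ℤ) ≤ C)]
  have h2 : ((Finset.Icc (-((n + C : ℕ) : ℤ)) ((n + C : ℕ) : ℤ)).filter B) ⊆
      ((Finset.Icc (-(n : ℤ)) n).filter B) ∪
      ((Finset.Icc (-((n + C : ℕ) : ℤ)) ((n + C : ℕ) : ℤ)) \ (Finset.Icc (-(n : ℤ)) n)) := by
    intro t ht
    rw [Finset.mem_filter] at ht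
    rw [Finset.mem_union, Finset.mem_filter, Finset.mem_sdiff]
    tauto
  have h3 : ((Finset.Icc (-((n + C : ℕ) : ℤ)) ((n + C : ℕ) : ℤ)) \ (Finset.Icc (-(n : ℤ)) n)).card
      = 2 * C := by
    rw [Finset.card_sdiff_of_subset hsub, Int.card_Icc, Int.card_Icc]
    push_cast
    omega
  calc _ ≤ _ := h1
    _ ≤ _ := Finset.card_le_card h2
    _ ≤ _ := Finset.card_union_le _ _
    _ = _ := by rw [h3]

lemma ncard_eq (A : ℤ → Prop) (n : ℕ) [DecidablePred A] :
    ({t : ℤ | A t} ∩ Set.Icc (-(n : ℤ)) n).ncard = ((Finset.Icc (-(n : ℤ)) n).filter A).card := by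
  rw [← Set.ncard_coe_finset]
  congr 1
  ext t
  simp only [Set.mem_inter_iff, Set.mem_ofPred_eq, Set.mem_Icc, Finset.coe_filter, Finset.mem_Icc]
  tauto

open Classical in
lemma nice_bounded (P : ℤ → Prop) (h b : ℤ) (hP : Nice P h b) :
    ∃ C : ℕ, ∀ n : ℕ, 2 * ({t : ℤ | P t} ∩ Set.Icc (-(n : ℤ)) n).ncard ≤ 2 * n + 1 + C ∧
      2 * n + 1 ≤ 2 * ({t : ℤ | P t} ∩ Set.Icc (-(n : ℤ)) n).ncard + C := by
  refine ⟨2 * (h.natAbs + b.natAbs), fun n => ?_⟩
  rw [ncard_eq]
  have per2 : ∀ t, P (t + h + h) ↔ P t := by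
    intro t
    have : t + h + h = t + 2 * h := by ring
    rw [this]
    exact hP.per t
  have hsum : ((Finset.Icc (-(n : ℤ)) n).filter P).card +
      ((Finset.Icc (-(n : ℤ)) n).filter (fun t => ¬ P t)).card = 2 * n + 1 := by
    rw [Finset.card_filter_add_card_filter_not, Int.card_Icc]
    omega
  have h1 := card_le_of_shift P (fun t => ¬ P t) (fun t => if P (t + h) then t - b else t + h)
    (h.natAbs + b.natAbs) (by
      intro t ht
      by_cases hth : P (t + h)
      · simp only [hth, if_true]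
        exact (hP.two t ht hth).1
      · simp [hth]) (by
      intro s t hs ht hst
      by_cases h1 : P (s + h) <;> by_cases h2 : P (t + h)
      · simp only [h1, h2, if_true] at hst
        linarith
      · simp only [h1, h2, if_true, if_false] at hst
        -- s - b = t + h
        exfalso
        have h3 := (hP.two s hs h1).2
        rw [hst, per2] at h3
        exact h3 ht
      · simp only [h1, h2, if_true, if_false] at hst
        exfalso
        have h3 := (hP.two t ht h2).2
        rw [← hst, per2] at h3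
        exact h3 hs
      · simp only [h1, h2, if_false] at hst
        linarith) (by
      intro t
      by_cases h1 : P (t + h)
      · simp only [h1, if_true]
        have : t - b - t = -b := by ring
        rw [this, abs_neg]
        push_cast
        linarith [abs_nonneg h, Int.natCast_natAbs b]
      · simp only [h1, if_false]
        have : t + h - t = h := by ring
        rw [this]
        push_cast
        linarith [abs_nonneg b, Int.natCast_natAbs h]) n
  have h2 := card_le_of_shift (fun t => ¬ P t) P (fun t => if P (t + h) then t + h else t + b)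
    (h.natAbs + b.natAbs) (by
      intro t ht
      by_cases hth : P (t + h)
      · simp only [hth, if_true]
      · simp only [hth, if_false]
        exact (hP.zero t ht hth).1) (by
      intro s t hs ht hst
      by_cases h1 : P (s + h) <;> by_cases h2 : P (t + h)
      · simp only [h1, h2, if_true] at hst
        linarith
      · simp only [h1, h2, if_true, if_false] at hst
        -- s + h = t + b
        exfalso
        have h3 := (hP.zero t ht h2).2
        rw [← hst, per2] at h3
        exact hs h3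
      · simp only [h1, h2, if_true, if_false] at hst
        exfalso
        have h3 := (hP.zero s hs h1).2
        rw [hst, per2] at h3
        exact ht h3
      · simp only [h1, h2, if_false] at hst
        linarith) (by
      intro t
      by_cases h1 : P (t + h)
      · simp only [h1, if_true]
        have : t + h - t = h := by ring
        rw [this]
        push_cast
        linarith [abs_nonneg b, Int.natCast_natAbs h]
      · simp only [h1, if_false]
        have : t + b - t = b := by ring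
        rw [this]
        push_cast
        linarith [abs_nonneg h, Int.natCast_natAbs b]) n
  omega

/-- A balanced pattern has density `1/2`. -/
theorem nice_density (P : ℤ → Prop) (h b : ℤ) (hP : Nice P h b) :
    Tendsto (fun n : ℕ => (({t : ℤ | P t} ∩ Set.Icc (-(n : ℤ)) n).ncard : ℝ) / (2 * n + 1))
      atTop (𝓝 (1 / 2)) := by
  obtain ⟨C, hC⟩ := nice_bounded P h b hP
  have hlim : Tendsto (fun n : ℕ => ((C : ℝ) / 2) * (1 / (2 * (n : ℝ) + 1))) atTop (𝓝 0) := by
    have h1 : Tendsto (fun n : ℕ => 1 / (2 * (n : ℝ) + 1)) atTop (𝓝 0) := by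
      have h2 := tendsto_one_div_add_atTop_nhds_zero_nat (𝕜 := ℝ)
      refine squeeze_zero (fun n => by positivity) (fun n => ?_) h2
      apply one_div_le_one_div_of_le (by positivity)
      linarith [(Nat.cast_nonneg n : (0 : ℝ) ≤ n)]
    simpa using h1.const_mul ((C : ℝ) / 2)
  rw [tendsto_iff_norm_sub_tendsto_zero]
  refine squeeze_zero (fun n => norm_nonneg _) (fun n => ?_) hlim
  obtain ⟨h1, h2⟩ := hC n
  have h1' : 2 * (({t : ℤ | P t} ∩ Set.Icc (-(n : ℤ)) n).ncard : ℝ) ≤ 2 * n + 1 + C := by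
    exact_mod_cast h1
  have h2' : (2 * (n : ℝ) + 1) ≤
      2 * (({t : ℤ | P t} ∩ Set.Icc (-(n : ℤ)) n).ncard : ℝ) + C := by
    exact_mod_cast h2
  have hpos : (0 : ℝ) < 2 * n + 1 := by positivity
  rw [Real.norm_eq_abs, abs_le]
  have e : (C : ℝ) / 2 * (1 / (2 * (n : ℝ) + 1)) = (C / 2) / (2 * n + 1) := by ring
  rw [e]
  constructor
  · rw [le_sub_iff_add_le, ← sub_eq_neg_add, sub_le_iff_le_add, ← add_div, le_div_iff₀ hpos]
    linarith
  · rw [sub_le_iff_le_add, div_le_iff₀ hpos, add_mul, div_mul_cancel₀ _ hpos.ne']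
    linarith

/-- Lower bound for the ships `{0,1,2}` and `{0,1,3}`. -/
theorem lower_bound (X : Set ℤ) (δ : ℝ)
    (hδ : Tendsto (fun n : ℕ => ((X ∩ Set.Icc (-(n : ℤ)) n).ncard : ℝ) / (2 * n + 1))
      atTop (𝓝 δ))
    (h1 : ∀ t : ℤ, t ∈ X ∨ t + 1 ∈ X ∨ t + 2 ∈ X)
    (h2 : ∀ t : ℤ, t ∈ X ∨ t + 1 ∈ X ∨ t + 3 ∈ X) : 1 / 2 ≤ δ := by
  classical
  -- indicator
  set x : ℤ → ℤ := fun t => if t ∈ X then 1 else 0 with hx
  have key : ∀ t, x t * x (t + 1) + x (t + 1) * x (t + 2) -
      (x (t + 1) * x (t + 2) + x (t + 2) * x (t + 3)) ≤ x t + x (t + 1) - 1 := by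
    intro t
    have a1 := h1 t
    have a2 := h2 t
    simp only [hx]
    by_cases b0 : t ∈ X <;> by_cases b1 : t + 1 ∈ X <;> by_cases b2 : t + 2 ∈ X <;>
      by_cases b3 : t + 3 ∈ X <;> simp_all
  have bnd : ∀ n : ℕ, (2 * (n : ℤ) + 1) - 3 ≤ 2 * ∑ t ∈ Finset.Icc (-(n : ℤ)) n, x t := by
    intro n
    have h01 : ∀ t, 0 ≤ x t ∧ x t ≤ 1 := by
      intro t
      simp only [hx]
      split_ifs <;> simp
    -- induction-free telescoping on naturals
    have tel : ∀ m : ℕ, ∀ a : ℤ,
        (x a * x (a + 1) + x (a + 1) * x (a + 2)) -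
          (x (a + m) * x (a + m + 1) + x (a + m + 1) * x (a + m + 2)) ≤
        ∑ i ∈ Finset.range m, (x (a + i) + x (a + i + 1) - 1) := by
      intro m a
      induction m with
      | zero => simp
      | succ m ih =>
        rw [Finset.sum_range_succ]
        have := key (a + m)
        have e1 : a + ((m + 1 : ℕ) : ℤ) = a + m + 1 := by push_cast; ring
        rw [e1]
        have e2 : a + (m : ℤ) + 1 + 1 = a + m + 2 := by ring
        have e3 : a + (m : ℤ) + 1 + 2 = a + m + 3 := by ring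
        rw [e2, e3]
        linarith
    have hsum : ∀ m : ℕ, ∀ a : ℤ, ∑ i ∈ Finset.range m, (x (a + i) + x (a + i + 1) - 1) =
        2 * ∑ i ∈ Finset.range m, x (a + i) + x (a + m) - x a - m := by
      intro m a
      induction m with
      | zero => simp
      | succ m ih =>
        rw [Finset.sum_range_succ, ih, Finset.sum_range_succ]
        have e1 : a + ((m + 1 : ℕ) : ℤ) = a + m + 1 := by push_cast; ring
        rw [e1]
        push_cast
        ring
    have hIcc : ∑ t ∈ Finset.Icc (-(n : ℤ)) n, x t =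
        ∑ i ∈ Finset.range (2 * n + 1), x (-(n : ℤ) + i) := by
      symm
      apply Finset.sum_bij (fun (i : ℕ) _ => (-(n : ℤ) + i))
      · intro i hi
        rw [Finset.mem_range] at hi
        rw [Finset.mem_Icc]
        omega
      · intro i _ j _ hij
        omega
      · intro t ht
        rw [Finset.mem_Icc] at ht
        refine ⟨(t + n).toNat, ?_, ?_⟩
        · rw [Finset.mem_range]; omega
        · omega
      · intro i _
        rfl
    have t1 := tel (2 * n + 1) (-(n : ℤ))
    rw [hsum, ← hIcc] at t1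
    have hp : ∀ s t, 0 ≤ x s * x t ∧ x s * x t ≤ 1 := by
      intro s t
      simp only [hx]
      split_ifs <;> simp
    have q1 := hp (-(n : ℤ)) (-(n : ℤ) + 1)
    have q2 := hp (-(n : ℤ) + 1) (-(n : ℤ) + 2)
    have q3 := hp (-(n : ℤ) + ((2 * n + 1 : ℕ) : ℤ)) (-(n : ℤ) + ((2 * n + 1 : ℕ) : ℤ) + 1)
    have q4 := hp (-(n : ℤ) + ((2 * n + 1 : ℕ) : ℤ) + 1) (-(n : ℤ) + ((2 * n + 1 : ℕ) : ℤ) + 2)
    have q5 := h01 (-(n : ℤ) + ((2 * n + 1 : ℕ) : ℤ))
    have q6 := h01 (-(n : ℤ))
    have q7 : ((2 * n + 1 : ℕ) : ℤ) = 2 * n + 1 := by push_cast; ring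
    linarith [q1.1, q1.2, q2.1, q2.2, q3.1, q3.2, q4.1, q4.2, q5.1, q5.2, q6.1, q6.2]
  have hcard : ∀ n : ℕ, ∑ t ∈ Finset.Icc (-(n : ℤ)) n, x t =
      ((X ∩ Set.Icc (-(n : ℤ)) n).ncard : ℤ) := by
    intro n
    have := ncard_eq (fun t => t ∈ X) n
    simp only [Set.ofPred_mem_eq] at this
    rw [this, Finset.card_filter]
    push_cast
    rfl
  -- pass to the limit
  have hlim : Tendsto (fun n : ℕ => (1 : ℝ) / 2 - (3 / 2) * (1 / (2 * (n : ℝ) + 1))) atTop
      (𝓝 (1 / 2)) := by
    have h1 : Tendsto (fun n : ℕ => 1 / (2 * (n : ℝ) + 1)) atTop (𝓝 0) := by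
      have h2 := tendsto_one_div_add_atTop_nhds_zero_nat (𝕜 := ℝ)
      refine squeeze_zero (fun n => by positivity) (fun n => ?_) h2
      apply one_div_le_one_div_of_le (by positivity)
      linarith [(Nat.cast_nonneg n : (0 : ℝ) ≤ n)]
    simpa using (h1.const_mul (3 / 2 : ℝ)).const_sub (1 / 2 : ℝ)
  refine le_of_tendsto_of_tendsto' hlim hδ (fun n => ?_)
  have hb := bnd n
  rw [hcard] at hb
  have hb' : (2 * (n : ℝ) + 1) - 3 ≤ 2 * ((X ∩ Set.Icc (-(n : ℤ)) n).ncard : ℝ) := by
    exact_mod_cast hb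
  have hpos : (0 : ℝ) < 2 * n + 1 := by positivity
  rw [le_div_iff₀ hpos, sub_mul, mul_assoc, one_div_mul_cancel hpos.ne']
  linarith

end Pool.Agent.Lib.MP_e24151_co
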