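import Pool.Agent.Lib.MP_e24151_co.Chain

set_option autoImplicit false

namespace Pool.Agent.Lib.MP_e24151_co

/-- `P` hits every translate of `{0, 2^w e, 2^v b}`. -/
def HitN (P : ℤ → Prop) (v w : ℕ) (b e : ℤ) : Prop :=
  ∀ t, P t ∨ P (t + 2 ^ w * e) ∨ P (t + 2 ^ v * b)

lemma hitN_of_anti_w {P : ℤ → Prop} {v w : ℕ} {b e : ℤ} (hP : ∀ t, P (t + 2 ^ w) ↔ ¬ P t)
    (he : Odd e) : HitN P v w b e := by
  intro t
  have := anti_odd hP e he t
  tauto

lemma hitN_of_anti_v {P : ℤ → Prop} {v w : ℕ} {b e : ℤ} (hP : ∀ t, P (t + 2 ^ v) ↔ ¬ P t)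
    (hb : Odd b) : HitN P v w b e := by
  intro t
  have := anti_odd hP b hb t
  tauto

lemma exceptional (v1 w1 v2 : ℕ) (b1 e1 b2 e2 c : ℤ) (hb1 : Odd b1) (he1 : Odd e1)
    (he2 : Odd e2) (hc : Odd c) (h12 : v1 < v2) (hw : v2 + 1 < w1)
    (hexc : 2 * (2 ^ v2 * b2) - 2 ^ (v2 + 1) * e2 = 2 ^ w1 * c) :
    ∃ (P : ℤ → Prop) (h b : ℤ), 0 < h ∧ Nice P h b ∧ HitN P v1 w1 b1 e1 ∧
      HitN P v2 (v2 + 1) b2 e2 := by
  obtain ⟨m, rfl⟩ : ∃ m, w1 = v2 + 1 + (m + 1) := ⟨w1 - (v2 + 2), by omega⟩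
  obtain ⟨n, rfl⟩ : ∃ n, v2 = v1 + (n + 1) := ⟨v2 - (v1 + 1), by omega⟩
  set L : ℤ := 2 ^ (m + 1) with hLdef
  set q : ℤ := 2 ^ (n + 1) with hqdef
  have hL : 2 ≤ L := by
    have : (1 : ℤ) ≤ 2 ^ m := one_le_pow₀ (by norm_num)
    rw [hLdef, pow_succ]; linarith
  have hq : 2 ≤ q := by
    have : (1 : ℤ) ≤ 2 ^ n := one_le_pow₀ (by norm_num)
    rw [hqdef, pow_succ]; linarith
  have hLe : Even L := ⟨2 ^ m, by rw [hLdef]; ring⟩
  have hqe : Even q := ⟨2 ^ n, by rw [hqdef]; ring⟩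
  have hbe : b2 - e2 = L * c := by
    have h1 : (2 : ℤ) ^ (v1 + (n + 1) + 1) * (b2 - e2) = 2 ^ (v1 + (n + 1) + 1) * (L * c) := by
      rw [hLdef]
      calc (2 : ℤ) ^ (v1 + (n + 1) + 1) * (b2 - e2)
          = 2 * (2 ^ (v1 + (n + 1)) * b2) - 2 ^ (v1 + (n + 1) + 1) * e2 := by ring
        _ = 2 ^ (v1 + (n + 1) + 1 + (m + 1)) * c := hexc
        _ = _ := by ring
    exact mul_left_cancel₀ (by positivity) h1
  obtain ⟨a, k1, ha, hae⟩ := exists_inv e2 he2 (m + 2)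
  have hae' : a * e2 = 1 + 4 * L * k1 := by rw [hae, hLdef]; ring
  have hg0 : Odd ((L + 1) * a) := (hLe.add_one).mul ha
  -- choose the sign
  obtain ⟨σ, k4, hσ, hk4⟩ : ∃ σ k4 : ℤ, (σ = 1 ∨ σ = -1) ∧ σ * ((L + 1) * a) * c = 1 + 4 * k4 := by
    have hodd : Odd ((L + 1) * a * c) := hg0.mul hc
    obtain ⟨k, hk⟩ := hodd
    rcases Int.even_or_odd' k with ⟨j, rfl | rfl⟩
    · exact ⟨1, j, Or.inl rfl, by linarith⟩
    · exact ⟨-1, -j - 1, Or.inr rfl, by linarith⟩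
  set g : ℤ := σ * ((L + 1) * a) with hg
  have hgodd : Odd g := by
    rcases hσ with rfl | rfl
    · rw [hg, one_mul]; exact hg0
    · rw [hg]; simpa using hg0.neg
  set b0 : ℤ := g * b1 with hb0
  have hb0odd : Odd b0 := hgodd.mul hb1
  have hcop : IsCoprime q b0 := by
    rw [hqdef]
    apply IsCoprime.pow_left
    obtain ⟨k, hk⟩ := hb0odd
    exact ⟨-k, 1, by rw [hk]; ring⟩
  -- choose γ
  have hq1 : Odd (q - 1) := hqe.sub_odd odd_one
  obtain ⟨y, k2, hy, hyq⟩ := exists_inv (q - 1) hq1 (m + 1)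
  have hyq' : y * (q - 1) = 1 + 2 * L * k2 := by rw [hyq, hLdef]; ring
  set γ : ℤ := ((2 - b0) * y) % (2 * L) with hγ
  have hγdiv := Int.mul_ediv_add_emod ((2 - b0) * y) (2 * L)
  rw [← hγ] at hγdiv
  have hγodd : γ % 2 = 1 := by
    have h1 : Odd ((2 - b0) * y) := (even_two.sub_odd hb0odd).mul hy
    have h2 : γ = (2 - b0) * y - 2 * L * ((2 - b0) * y / (2 * L)) := by linarith
    have h3 : Odd γ := by
      rw [h2]
      exact h1.sub_even ⟨L * ((2 - b0) * y / (2 * L)), by ring⟩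
    exact Int.odd_iff.mp h3
  have hγ0 : 0 ≤ γ := Int.emod_nonneg _ (by omega)
  have hγ1 : γ < 2 * L := Int.emod_lt_of_pos _ (by omega)
  have hγpos : 0 < γ := by omega
  obtain ⟨j, hj⟩ : ∃ j, (q - 1) * γ + b0 = 2 + 2 * L * j := by
    refine ⟨(2 - b0) * k2 - (q - 1) * ((2 - b0) * y / (2 * L)), ?_⟩
    have h2 : γ = (2 - b0) * y - 2 * L * ((2 - b0) * y / (2 * L)) := by linarith
    calc (q - 1) * γ + b0 = (2 - b0) * (y * (q - 1)) -
          2 * L * ((q - 1) * ((2 - b0) * y / (2 * L))) + b0 := by rw [h2]; ring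
      _ = _ := by rw [hyq']; ring
  have hN0 : Nice (chainP L γ q b0) (2 * L * q) b0 :=
    chain_nice L γ q b0 j hL hγodd hγpos hγ1 hq hcop hj
  have hH0 := fun t => chain_hits L γ q b0 t hL hγodd hγpos hγ1 hq hcop
  have hN1 : Nice (fun t => chainP L γ q b0 (g * t)) (2 * L * q) b1 := hN0.mul hgodd
  have hpos1 : (0 : ℤ) < 2 ^ v1 := by positivity
  have hN2 := hN1.scale hpos1
  have hge2 : g * e2 = σ * (L + 1) + 4 * L * (σ * (L + 1) * k1) := by
    calc g * e2 = σ * (L + 1) * (a * e2) := by rw [hg]; ring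
      _ = _ := by rw [hae']; ring
  have hgbe : g * (b2 - e2) = L + 4 * L * k4 := by
    calc g * (b2 - e2) = L * (g * c) := by rw [hbe]; ring
      _ = _ := by rw [hk4]; ring
  refine ⟨_, _, _, ?_, hN2, ?_, ?_⟩
  · positivity
  · intro t
    have e1' : (t + 2 ^ (v1 + (n + 1) + 1 + (m + 1)) * e1) / 2 ^ v1 =
        t / 2 ^ v1 + 2 * L * q * e1 := by
      have : t + 2 ^ (v1 + (n + 1) + 1 + (m + 1)) * e1 = t + 2 ^ v1 * (2 * L * q * e1) := by
        rw [hLdef, hqdef]; ring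
      rw [this, Int.add_mul_ediv_left _ _ hpos1.ne']
    have e2' : (t + 2 ^ v1 * b1) / 2 ^ v1 = t / 2 ^ v1 + b1 := Int.add_mul_ediv_left _ _ hpos1.ne'
    simp only [e1', e2']
    by_contra hcon
    push Not at hcon
    obtain ⟨c1, c2, c3⟩ := hcon
    have hper : chainP L γ q b0 (g * (t / 2 ^ v1 + 2 * L * q * e1)) ↔
        chainP L γ q b0 (g * (t / 2 ^ v1 + 2 * L * q)) := by
      obtain ⟨k, hk⟩ := he1
      have : t / 2 ^ v1 + 2 * L * q * e1 = (t / 2 ^ v1 + 2 * L * q) + 2 * (2 * L * q) * k := by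
        rw [hk]; ring
      rw [this]
      exact hN1.per_mul k _
    rw [hper] at c2
    exact c3 (hN1.zero _ c1 c2).1
  · intro t
    have e1' : (t + 2 ^ (v1 + (n + 1) + 1) * e2) / 2 ^ v1 = t / 2 ^ v1 + 2 * q * e2 := by
      have : t + 2 ^ (v1 + (n + 1) + 1) * e2 = t + 2 ^ v1 * (2 * q * e2) := by
        rw [hqdef]; ring
      rw [this, Int.add_mul_ediv_left _ _ hpos1.ne']
    have e2' : (t + 2 ^ (v1 + (n + 1)) * b2) / 2 ^ v1 = t / 2 ^ v1 + q * b2 := by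
      have : t + 2 ^ (v1 + (n + 1)) * b2 = t + 2 ^ v1 * (q * b2) := by
        rw [hqdef]; ring
      rw [this, Int.add_mul_ediv_left _ _ hpos1.ne']
    simp only [e1', e2']
    generalize t / 2 ^ v1 = τ
    set x := g * τ + q * (g * e2) with hx
    have f1 : g * τ = (x - q * (σ * (L + 1))) + 2 * (2 * L * q) * (-(σ * (L + 1) * k1)) := by
      rw [hx, hge2]; ring
    have f2 : g * (τ + 2 * q * e2) =
        (x + q * (σ * (L + 1))) + 2 * (2 * L * q) * (σ * (L + 1) * k1) := by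
      have : g * (τ + 2 * q * e2) = x + q * (g * e2) := by rw [hx]; ring
      rw [this, hge2]; ring
    have f3 : g * (τ + q * b2) = (x + q * L) + 2 * (2 * L * q) * k4 := by
      have : g * (τ + q * b2) = x + q * (g * (b2 - e2)) := by rw [hx]; ring
      rw [this, hgbe]; ring
    rw [f1, f2, f3, hN0.per_mul, hN0.per_mul, hN0.per_mul]
    have := hH0 x
    rcases hσ with rfl | rfl
    · simpa using this
    · have g1 : x - q * (-1 * (L + 1)) = x + q * (L + 1) := by ring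
      have g2 : x + q * (-1 * (L + 1)) = x - q * (L + 1) := by ring
      rw [g1, g2]
      tauto

theorem exists_pattern (v1 w1 v2 w2 : ℕ) (b1 e1 b2 e2 : ℤ) (hb1 : Odd b1) (he1 : Odd e1)
    (hb2 : Odd b2) (he2 : Odd e2) (h1 : v1 < w1) (h2 : v2 < w2) :
    ∃ (P : ℤ → Prop) (h b : ℤ), 0 < h ∧ Nice P h b ∧ HitN P v1 w1 b1 e1 ∧
      HitN P v2 w2 b2 e2 := by
  wlog hw : w2 ≤ w1 generalizing v1 w1 v2 w2 b1 e1 b2 e2
  · obtain ⟨P, h, b, hh, hN, hA, hB⟩ := this v2 w2 v1 w1 b2 e2 b1 e1 hb2 he2 hb1 he1 h2 h1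
      (by omega)
    exact ⟨P, h, b, hh, hN, hB, hA⟩
  have one_odd : Odd (1 : ℤ) := odd_one
  rcases eq_or_lt_of_le hw with hw | hw
  · subst hw
    have ha := half_anti w2 1 one_odd
    exact ⟨half w2 1, 2 ^ w2, 0, by positivity, nice_of_anti ha, hitN_of_anti_w ha he1,
      hitN_of_anti_w ha he2⟩
  · by_cases hex : w2 = v2 + 1 ∧ ∃ c : ℤ, Odd c ∧ 2 * (2 ^ v2 * b2) - 2 ^ w2 * e2 = 2 ^ w1 * c
    · obtain ⟨hwv, c, hc, hD⟩ := hex
      rcases lt_trichotomy v1 v2 with hv | hv | hv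
      · subst hwv
        exact exceptional v1 w1 v2 b1 e1 b2 e2 c hb1 he1 he2 hc hv hw hD
      · subst hv
        have ha := half_anti v1 1 one_odd
        exact ⟨half v1 1, 2 ^ v1, 0, by positivity, nice_of_anti ha, hitN_of_anti_v ha hb1,
          hitN_of_anti_v ha hb2⟩
      · rcases eq_or_lt_of_le (show w2 ≤ v1 by omega) with hv' | hv'
        · subst hv'
          have ha := half_anti w2 1 one_odd
          exact ⟨half w2 1, 2 ^ w2, 0, by positivity, nice_of_anti ha, hitN_of_anti_v ha hb1,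
            hitN_of_anti_w ha he2⟩
        · obtain ⟨u, hu, hh⟩ := exists_half v1 v2 w2 b2 e2 hb2 he2 h2 hv' (by
            intro _ c' hc' hD'
            rw [hD] at hD'
            -- `2^w1 c = 2^v1 c'` with `c'` odd and `v1 < w1`
            obtain ⟨d, rfl⟩ : ∃ d, w1 = v1 + (d + 1) := ⟨w1 - (v1 + 1), by omega⟩
            have h3 : (2 : ℤ) ^ v1 * (2 * (2 ^ d * c)) = 2 ^ v1 * c' := by
              rw [← hD']; ring
            have h4 := mul_left_cancel₀ (by positivity : (2 : ℤ) ^ v1 ≠ 0) h3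
            rw [← h4] at hc'
            exact (Int.not_odd_iff_even.mpr (even_two_mul _)) hc')
          have ha := half_anti v1 u hu
          exact ⟨half v1 u, 2 ^ v1, 0, by positivity, nice_of_anti ha, hitN_of_anti_v ha hb1, hh⟩
    · obtain ⟨u, hu, hh⟩ := exists_half w1 v2 w2 b2 e2 hb2 he2 h2 hw (by
        intro hwv c' hc' hD'
        exact hex ⟨hwv, c', hc', hD'⟩)
      have ha := half_anti w1 u hu
      exact ⟨half w1 u, 2 ^ w1, 0, by positivity, nice_of_anti ha, hitN_of_anti_w ha he1, hh⟩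

lemma exists_two_pow_odd (D : ℤ) (hD : D ≠ 0) : ∃ (k : ℕ) (c : ℤ), Odd c ∧ D = 2 ^ k * c := by
  obtain ⟨k, m, hm, h⟩ := Nat.exists_eq_two_pow_mul_odd (n := D.natAbs) (by omega)
  rcases Int.natAbs_eq D with h1 | h1
  · exact ⟨k, m, by exact_mod_cast hm, by rw [h1, h]; push_cast; ring⟩
  · refine ⟨k, -m, ?_, by rw [h1, h]; push_cast; ring⟩
    have : Odd (m : ℤ) := by exact_mod_cast hm
    exact this.neg

/-- Normal form of a three point set. -/
lemma exists_normal (p1 p2 p3 : ℤ) (h12 : p1 ≠ p2) (h13 : p1 ≠ p3) (h23 : p2 ≠ p3) :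
    ∃ (v w : ℕ) (b e : ℤ), Odd b ∧ Odd e ∧ v < w ∧ ∀ P : ℤ → Prop, HitN P v w b e →
      ∀ t, P (t + p1) ∨ P (t + p2) ∨ P (t + p3) := by
  obtain ⟨k, c, hc, hD⟩ := exists_two_pow_odd (p2 - p1) (by omega)
  obtain ⟨l, d, hd, hE⟩ := exists_two_pow_odd (p3 - p1) (by omega)
  rcases lt_trichotomy k l with hkl | hkl | hkl
  · refine ⟨k, l, c, d, hc, hd, hkl, fun P hP t => ?_⟩
    have := hP (t + p1)
    rw [← hD, ← hE] at this
    have e1 : t + p1 + (p3 - p1) = t + p3 := by ring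
    have e2 : t + p1 + (p2 - p1) = t + p2 := by ring
    rw [e1, e2] at this
    tauto
  · subst hkl
    obtain ⟨w, e, he, hF⟩ := exists_two_pow_odd (p3 - p2) (by omega)
    have hkw : k < w := by
      by_contra hcon
      push Not at hcon
      obtain ⟨f, rfl⟩ : ∃ f, k = w + f := ⟨k - w, by omega⟩
      have h1 : (2 : ℤ) ^ w * e = 2 ^ w * (2 ^ f * (d - c)) := by
        rw [← hF]
        have : p3 - p2 = (p3 - p1) - (p2 - p1) := by ring
        rw [this, hD, hE]; ring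
      have h2 := mul_left_cancel₀ (by positivity : (2 : ℤ) ^ w ≠ 0) h1
      have h3 : Even (d - c) := hd.sub_odd hc
      rw [h2] at he
      exact (Int.not_odd_iff_even.mpr (h3.mul_left _)) he
    refine ⟨k, w, -c, e, hc.neg, he, hkw, fun P hP t => ?_⟩
    have := hP (t + p2)
    have e0 : (2 : ℤ) ^ k * -c = -(p2 - p1) := by rw [hD]; ring
    rw [← hF, e0] at this
    have e1 : t + p2 + (p3 - p2) = t + p3 := by ring
    have e2 : t + p2 + -(p2 - p1) = t + p1 := by ring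
    rw [e1, e2] at this
    tauto
  · refine ⟨l, k, d, c, hd, hc, hkl, fun P hP t => ?_⟩
    have := hP (t + p1)
    rw [← hD, ← hE] at this
    have e1 : t + p1 + (p3 - p1) = t + p3 := by ring
    have e2 : t + p1 + (p2 - p1) = t + p2 := by ring
    rw [e1, e2] at this
    tauto

end Pool.Agent.Lib.MP_e24151_co
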