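import Mathlib

set_option autoImplicit false

namespace Pool.Agent.Lib.MP_e24151_co

/-- `P` has period `2 h`; a position `t` such that `t` and `t + h` are both shot is matched with the
position `t - b` such that `t - b` and `t - b + h` are both not shot. -/
structure Nice (P : ℤ → Prop) (h b : ℤ) : Prop where
  per : ∀ t, P (t + 2 * h) ↔ P t
  two : ∀ t, P t → P (t + h) → ¬ P (t - b) ∧ ¬ P (t - b + h)
  zero : ∀ t, ¬ P t → ¬ P (t + h) → P (t + b) ∧ P (t + b + h)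

lemma Nice.per_mul {P : ℤ → Prop} {h b : ℤ} (hP : Nice P h b) (k t : ℤ) :
    P (t + 2 * h * k) ↔ P t := by
  induction k using Int.induction_on generalizing t with
  | zero => simp
  | succ k ih =>
    have e : t + 2 * h * ((k : ℤ) + 1) = (t + 2 * h * (k : ℤ)) + 2 * h := by ring
    rw [e, hP.per, ih]
  | pred k ih =>
    have e : t + 2 * h * (-(k : ℤ)) = (t + 2 * h * (-(k : ℤ) - 1)) + 2 * h := by ring
    rw [← ih t, e, hP.per]

/-- Antiperiodic predicates. -/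
lemma nice_of_anti {P : ℤ → Prop} {h : ℤ} (hP : ∀ t, P (t + h) ↔ ¬ P t) : Nice P h 0 := by
  refine ⟨?_, ?_, ?_⟩
  · intro t
    have e : t + 2 * h = (t + h) + h := by ring
    rw [e, hP, hP, not_not]
  · intro t h1 h2
    exact absurd h1 ((hP t).1 h2)
  · intro t h1 h2
    exact absurd ((hP t).2 h1) h2

lemma anti_odd {P : ℤ → Prop} {h : ℤ} (hP : ∀ t, P (t + h) ↔ ¬ P t) (c : ℤ) (hc : Odd c) (t : ℤ) :
    P (t + h * c) ↔ ¬ P t := by
  obtain ⟨k, rfl⟩ := hc
  have e : t + h * (2 * k + 1) = (t + h) + 2 * h * k := by ring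
  rw [e, (nice_of_anti hP).per_mul, hP]

/-- Scaling. -/
lemma Nice.scale {P : ℤ → Prop} {h b : ℤ} (hP : Nice P h b) {k : ℤ} (hk : 0 < k) :
    Nice (fun t => P (t / k)) (k * h) (k * b) := by
  have e1 : ∀ t x : ℤ, (t + k * x) / k = t / k + x := fun t x => by
    rw [Int.add_mul_ediv_left _ _ hk.ne']
  have e2 : ∀ t x : ℤ, (t - k * x) / k = t / k - x := fun t x => by
    have : t - k * x = t + k * (-x) := by ring
    rw [this, e1]; ring
  refine ⟨?_, ?_, ?_⟩
  · intro t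
    have : t + 2 * (k * h) = t + k * (2 * h) := by ring
    simp only [this, e1]
    exact hP.per _
  · intro t h1 h2
    simp only [e1] at h2
    simp only [e1, e2]
    exact hP.two _ h1 h2
  · intro t h1 h2
    simp only [e1] at h2
    simp only [e1]
    exact hP.zero _ h1 h2

/-- Multiplication by an odd number. -/
lemma Nice.mul {P : ℤ → Prop} {h b g : ℤ} (hP : Nice P h (g * b)) (hg : Odd g) :
    Nice (fun t => P (g * t)) h b := by
  obtain ⟨k, rfl⟩ := hg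
  have e : ∀ t : ℤ, P ((2 * k + 1) * (t + h)) ↔ P ((2 * k + 1) * t + h) := by
    intro t
    have : (2 * k + 1) * (t + h) = ((2 * k + 1) * t + h) + 2 * h * k := by ring
    rw [this, hP.per_mul]
  refine ⟨?_, ?_, ?_⟩
  · intro t
    have : (2 * k + 1) * (t + 2 * h) = (2 * k + 1) * t + 2 * h * (2 * k + 1) := by ring
    simp only [this]
    exact hP.per_mul _ _
  · intro t h1 h2
    simp only [e] at h2 ⊢
    have := hP.two _ h1 h2
    have e3 : (2 * k + 1) * (t - b) = (2 * k + 1) * t - (2 * k + 1) * b := by ring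
    rw [e3]
    exact this
  · intro t h1 h2
    simp only [e] at h2 ⊢
    have := hP.zero _ h1 h2
    have e3 : (2 * k + 1) * (t + b) = (2 * k + 1) * t + (2 * k + 1) * b := by ring
    rw [e3]
    exact this

lemma emod_add_cases (s x N : ℤ) (hN : 0 < N) (hx : 0 ≤ x) (hx' : x < N) :
    ((s + x) % N = s % N + x ∧ s % N + x < N) ∨ ((s + x) % N = s % N + x - N ∧ N ≤ s % N + x) := by
  have h1 := Int.emod_nonneg s hN.ne'
  have h2 := Int.emod_lt_of_pos s hN
  rw [Int.add_emod, Int.emod_eq_of_lt hx hx']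
  rcases lt_or_ge (s % N + x) N with h | h
  · left
    exact ⟨Int.emod_eq_of_lt (by omega) h, h⟩
  · right
    refine ⟨?_, h⟩
    have : s % N + x = (s % N + x - N) + N * 1 := by ring
    rw [this, Int.add_mul_emod_self_left, Int.emod_eq_of_lt (by omega) (by omega)]
    ring

/-! ### The half circle -/

/-- The half circle pattern. -/
def half (K : ℕ) (u : ℤ) (t : ℤ) : Prop := (u * t) % (2 ^ (K + 1)) < 2 ^ K

lemma half_anti (K : ℕ) (u : ℤ) (hu : Odd u) (t : ℤ) : half K u (t + 2 ^ K) ↔ ¬ half K u t := by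
  unfold half
  obtain ⟨k, rfl⟩ := hu
  have hN : (0 : ℤ) < 2 ^ (K + 1) := by positivity
  have hK : (0 : ℤ) < 2 ^ K := by positivity
  have e0 : (2 : ℤ) ^ (K + 1) = 2 * 2 ^ K := by ring
  have e : (2 * k + 1) * (t + 2 ^ K) = ((2 * k + 1) * t + 2 ^ K) + 2 ^ (K + 1) * k := by
    rw [e0]; ring
  rw [e, Int.add_mul_emod_self_left]
  have h1 := Int.emod_nonneg ((2 * k + 1) * t) hN.ne'
  have h2 := Int.emod_lt_of_pos ((2 * k + 1) * t) hN
  rcases emod_add_cases ((2 * k + 1) * t) (2 ^ K) (2 ^ (K + 1)) hN hK.le (by rw [e0]; linarith)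
    with ⟨h3, h4⟩ | ⟨h3, h4⟩
  · rw [h3]
    rw [e0] at *
    constructor <;> intro h <;> omega
  · rw [h3]
    rw [e0] at *
    constructor <;> intro h <;> omega

/-- Odd numbers are invertible modulo powers of two. -/
lemma exists_inv (a : ℤ) (ha : Odd a) (n : ℕ) : ∃ b k : ℤ, Odd b ∧ b * a = 1 + 2 ^ (n + 1) * k := by
  have hc : IsCoprime a ((2 : ℤ) ^ (n + 1)) := by
    apply IsCoprime.pow_right
    obtain ⟨k, rfl⟩ := ha
    exact ⟨1, -k, by ring⟩
  obtain ⟨x, y, hxy⟩ := hc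
  refine ⟨x, -y, ?_, by linarith⟩
  by_contra hx
  rw [Int.not_odd_iff_even] at hx
  have h1 : Even (x * a + y * 2 ^ (n + 1)) := by
    apply Even.add
    · exact hx.mul_right _
    · apply Even.mul_left
      exact ⟨2 ^ n, by ring⟩
  rw [hxy] at h1
  exact absurd h1 (by decide)

lemma half_hits (K w : ℕ) (u e c t : ℤ) (hw : w < K)
    (he : (u * e) % 2 ^ (K + 1) = 2 ^ K - 2 ^ w)
    (hc1 : 2 ^ K ≤ (u * c) % 2 ^ (K + 1)) (hc2 : (u * c) % 2 ^ (K + 1) ≤ 2 ^ (K + 1) - 2 ^ w) :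
    half K u t ∨ half K u (t + e) ∨ half K u (t + c) := by
  unfold half
  have hN : (0 : ℤ) < 2 ^ (K + 1) := by positivity
  have hw0 : (0 : ℤ) < 2 ^ w := by positivity
  have hKw : (2 : ℤ) ^ w ≤ 2 ^ K := pow_le_pow_right₀ (by norm_num) hw.le
  have e0 : (2 : ℤ) ^ (K + 1) = 2 * 2 ^ K := by ring
  have E1 : (u * (t + e)) % 2 ^ (K + 1) = (u * t + (2 ^ K - 2 ^ w)) % 2 ^ (K + 1) := by
    rw [mul_add, Int.add_emod, he, Int.add_emod (u * t) (2 ^ K - 2 ^ w)]
    rw [Int.emod_eq_of_lt (a := 2 ^ K - 2 ^ w) (by linarith) (by rw [e0]; linarith)]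
  have E2 : (u * (t + c)) % 2 ^ (K + 1) =
      (u * t + ((u * c) % 2 ^ (K + 1))) % 2 ^ (K + 1) := by
    rw [mul_add, Int.add_emod_emod]
  rw [E1, E2]
  set y := (u * t) % 2 ^ (K + 1) with hy
  have y1 : 0 ≤ y := Int.emod_nonneg _ hN.ne'
  have y2 : y < 2 ^ (K + 1) := Int.emod_lt_of_pos _ hN
  have a1 := emod_add_cases (u * t) (2 ^ K - 2 ^ w) (2 ^ (K + 1)) hN (by linarith)
    (by rw [e0]; linarith)
  have a2 := emod_add_cases (u * t) ((u * c) % 2 ^ (K + 1)) (2 ^ (K + 1)) hN (by linarith)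
    (by linarith)
  rw [← hy] at a1 a2
  generalize (u * t + (2 ^ K - 2 ^ w)) % 2 ^ (K + 1) = A at *
  generalize (u * t + ((u * c) % 2 ^ (K + 1))) % 2 ^ (K + 1) = B at *
  generalize (u * c) % 2 ^ (K + 1) = C at *
  rw [e0] at *
  generalize (2 : ℤ) ^ K = X at *
  generalize (2 : ℤ) ^ w = Y at *
  omega

/-- Existence of a good rotation number, outside the exceptional configuration. -/
lemma exists_half (K v w : ℕ) (b e : ℤ) (hb : Odd b) (he : Odd e) (hvw : v < w) (hw : w < K)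
    (hne : w = v + 1 → ∀ c : ℤ, Odd c → 2 * (2 ^ v * b) - 2 ^ w * e ≠ 2 ^ K * c) :
    ∃ u : ℤ, Odd u ∧ ∀ t, half K u t ∨ half K u (t + 2 ^ w * e) ∨ half K u (t + 2 ^ v * b) := by
  obtain ⟨a, k1, ha, hae⟩ := exists_inv e he K
  obtain ⟨β, k2, hβ, hβb⟩ := exists_inv b hb K
  obtain ⟨d, hd⟩ : ∃ d, K = w + 1 + d := ⟨K - (w + 1), by omega⟩
  obtain ⟨f, hf⟩ : ∃ f, w = v + 1 + f := ⟨w - (v + 1), by omega⟩
  -- `N = 2^(K+1)`, `K = w+1+d`, `w = v+1+f`
  set u0 : ℤ := a * (2 ^ (K - w) - 1) with hu0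
  have hKw : K - w = d + 1 := by omega
  have hodd0 : Odd u0 := by
    rw [hu0, hKw]
    apply ha.mul
    exact ⟨2 ^ d - 1, by ring⟩
  set σ : ℤ := 2 ^ (K + 1 - (w - v)) with hσ
  have hσpos : 0 < σ := by rw [hσ]; positivity
  -- the family
  have fam : ∀ j : ℤ, ∃ u : ℤ, Odd u ∧ (u * (2 ^ w * e)) % 2 ^ (K + 1) = 2 ^ K - 2 ^ w ∧
      (u * (2 ^ v * b)) % 2 ^ (K + 1) = (u0 * (2 ^ v * b) + j * σ) % 2 ^ (K + 1) := by
    intro j
    refine ⟨u0 + j * β * 2 ^ (d + 2), ?_, ?_, ?_⟩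
    · apply hodd0.add_even
      apply Even.mul_left
      exact ⟨2 ^ (d + 1), by ring⟩
    · have e1 : (u0 + j * β * 2 ^ (d + 2)) * (2 ^ w * e) =
          (2 ^ K - 2 ^ w) + 2 ^ (K + 1) * (2 ^ w * (2 ^ (d + 1) - 1) * k1 + j * β * e) := by
        rw [hu0, hKw]
        have : a * (2 ^ (d + 1) - 1) * (2 ^ w * e) = 2 ^ w * (2 ^ (d + 1) - 1) * (a * e) := by ring
        rw [add_mul, this, hae]
        have e2 : (2 : ℤ) ^ (K + 1) = 2 ^ w * 2 ^ (d + 2) := by
          rw [hd, ← pow_add]; congr 1; ring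
        have e3 : (2 : ℤ) ^ K = 2 ^ w * 2 ^ (d + 1) := by
          rw [hd, ← pow_add]; congr 1; ring
        rw [e3, e2]
        ring
      rw [e1, Int.add_mul_emod_self_left]
      have h1 : (2 : ℤ) ^ w ≤ 2 ^ K := pow_le_pow_right₀ (by norm_num) hw.le
      have h2 : (0 : ℤ) < 2 ^ w := by positivity
      have h3 : (0 : ℤ) < 2 ^ K := by positivity
      exact Int.emod_eq_of_lt (by linarith) (by rw [pow_succ]; linarith)
    · have e1 : (u0 + j * β * 2 ^ (d + 2)) * (2 ^ v * b) =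
          (u0 * (2 ^ v * b) + j * σ) + 2 ^ (K + 1) * (j * 2 ^ (v + d + 2) * k2) := by
        have : (u0 + j * β * 2 ^ (d + 2)) * (2 ^ v * b) =
          u0 * (2 ^ v * b) + j * 2 ^ (d + 2) * 2 ^ v * (β * b) := by ring
        rw [this, hβb, hσ]
        have e4 : K + 1 - (w - v) = v + d + 2 := by omega
        rw [e4]
        ring
      rw [e1, Int.add_mul_emod_self_left]
  have hσe : σ = 2 ^ (v + d + 2) := by
    rw [hσ]; congr 1; omega
  -- the residue
  set x := u0 * (2 ^ v * b) with hx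
  have hN : (0 : ℤ) < 2 ^ (K + 1) := by positivity
  have eN : (2 : ℤ) ^ (K + 1) = 2 * 2 ^ K := by ring
  have eK : (2 : ℤ) ^ K = σ * 2 ^ f := by
    rw [hσe, ← pow_add]; congr 1; omega
  have ew : (2 : ℤ) ^ K = 2 ^ w * (2 * 2 ^ d) := by
    rw [hd]; ring
  have hd1 : (1 : ℤ) ≤ 2 ^ d := one_le_pow₀ (by norm_num)
  have hw0 : (0 : ℤ) < 2 ^ w := by positivity
  have hr1 := Int.emod_nonneg x hσpos.ne'
  have hr2 := Int.emod_lt_of_pos x hσpos
  have hxr := Int.mul_ediv_add_emod x σ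
  set r := x % σ with hr
  have hwK : 2 * (2 : ℤ) ^ w ≤ 2 ^ K := by
    rw [ew]; nlinarith
  have good : r ≤ 2 ^ K - 2 ^ w := by
    rcases Nat.eq_zero_or_pos f with hf0 | hf0
    · -- step `2^K`
      subst hf0
      have hσK : σ = 2 ^ K := by rw [eK]; ring
      by_contra hcon
      push Not at hcon
      have hwv : w = v + 1 := by omega
      have hpv : (2 : ℤ) ^ w = 2 * 2 ^ v := by rw [hwv]; ring
      have hv0 : (0 : ℤ) < 2 ^ v := by positivity
      have hKv : (2 : ℤ) ^ K = 2 ^ v * (4 * 2 ^ d) := by rw [ew, hpv]; ring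
      -- `r` is an odd multiple of `2^v`
      have hrv : r = 2 ^ v * (u0 * b - 4 * 2 ^ d * (x / σ)) := by
        have : r = x - σ * (x / σ) := by linarith
        rw [this, hσK, hKv, hx]; ring
      have hrK : r = 2 ^ K - 2 ^ v := by
        have hr2' : r < 2 ^ K := lt_of_lt_of_eq hr2 hσK
        rw [hrv] at hcon hr2' ⊢
        rw [hKv] at hr2'
        rw [hKv, hpv] at hcon
        rw [hKv]
        have h1 : u0 * b - 4 * 2 ^ d * (x / σ) < 4 * 2 ^ d := lt_of_mul_lt_mul_left hr2' hv0.le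
        have h2 : 4 * 2 ^ d - 2 < u0 * b - 4 * 2 ^ d * (x / σ) := by
          apply lt_of_mul_lt_mul_left _ hv0.le
          linarith
        have h3 : u0 * b - 4 * 2 ^ d * (x / σ) = 4 * 2 ^ d - 1 := by omega
        rw [h3]; ring
      have hxx : x = 2 ^ K - 2 ^ v + 2 ^ K * (x / σ) := by
        rw [hσK] at hxr ⊢; linarith
      -- now contradiction
      have hu0e : u0 * (2 ^ w * e) = (2 ^ K - 2 ^ w) + 2 ^ (K + 1) * (2 ^ w * (2 ^ (d + 1) - 1) * k1) := by
        rw [hu0, hKw]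
        have : a * (2 ^ (d + 1) - 1) * (2 ^ w * e) = 2 ^ w * (2 ^ (d + 1) - 1) * (a * e) := by ring
        rw [this, hae]
        have e3 : (2 : ℤ) ^ K = 2 ^ w * 2 ^ (d + 1) := by
          rw [hd, ← pow_add]; congr 1; ring
        rw [e3]
        ring
      have hD : u0 * (2 * (2 ^ v * b) - 2 ^ w * e) =
          2 ^ K * (2 * ((x / σ) - 2 ^ w * (2 ^ (d + 1) - 1) * k1) + 1) := by
        have : u0 * (2 * (2 ^ v * b) - 2 ^ w * e) = 2 * x - u0 * (2 ^ w * e) := by rw [hx]; ring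
        rw [this, hu0e, eN, hpv]
        calc 2 * x - (2 ^ K - 2 * 2 ^ v + 2 * 2 ^ K * (2 * 2 ^ v * (2 ^ (d + 1) - 1) * k1))
            = 2 * (2 ^ K - 2 ^ v + 2 ^ K * (x / σ)) -
              (2 ^ K - 2 * 2 ^ v + 2 * 2 ^ K * (2 * 2 ^ v * (2 ^ (d + 1) - 1) * k1)) := by
              rw [← hxx]
          _ = _ := by ring
      have hdvd : (2 : ℤ) ^ K ∣ u0 * (2 * (2 ^ v * b) - 2 ^ w * e) := ⟨_, hD⟩
      have hcop : IsCoprime ((2 : ℤ) ^ K) u0 := by
        apply IsCoprime.pow_left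
        obtain ⟨k, hk⟩ := hodd0
        exact ⟨-k, 1, by rw [hk]; ring⟩
      obtain ⟨c, hc⟩ := hcop.dvd_of_dvd_mul_left hdvd
      have hcodd : Odd c := by
        rw [hc] at hD
        have h1 : (2 : ℤ) ^ K * (u0 * c) =
            2 ^ K * (2 * ((x / σ) - 2 ^ w * (2 ^ (d + 1) - 1) * k1) + 1) := by
          rw [← hD]; ring
        have h2 := mul_left_cancel₀ (by positivity : (2 : ℤ) ^ K ≠ 0) h1
        have h3 : Odd (u0 * c) := ⟨_, h2⟩
        exact (Int.odd_mul.mp h3).2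
      exact hne hwv c hcodd hc
    · -- step at most `2^(K-1)`
      have h1 : (2 : ℤ) ≤ 2 ^ f := by
        calc (2 : ℤ) = 2 ^ 1 := by norm_num
          _ ≤ 2 ^ f := pow_le_pow_right₀ (by norm_num) hf0
      have : 2 * σ ≤ 2 ^ K := by rw [eK]; nlinarith
      linarith
  -- choose `j` so that the value is `2^K + r`
  obtain ⟨u, hu, h1, h2⟩ := fam (2 ^ f - x / σ)
  have hval : (u * (2 ^ v * b)) % 2 ^ (K + 1) = 2 ^ K + r := by
    rw [h2]
    have : x + (2 ^ f - x / σ) * σ = 2 ^ K + r := by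
      rw [eK]; linarith [hxr, mul_comm σ (x / σ)]
    rw [this]
    exact Int.emod_eq_of_lt (by linarith [pow_pos (by norm_num : (0 : ℤ) < 2) K]) (by
      rw [eN]; linarith)
  refine ⟨u, hu, fun t => half_hits K w u (2 ^ w * e) (2 ^ v * b) t hw h1 ?_ ?_⟩
  · rw [hval]; linarith
  · rw [hval, eN]; linarith

end Pool.Agent.Lib.MP_e24151_co
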